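import Pool.Agent.helper5.PR.SpecM

namespace Pool.Agent.PR

/-- Dirichlet's theorem for two congruences with integer residues. -/
theorem M_TRB_dir (m n : ℕ) (hm : m ≠ 0) (hn : n ≠ 0) (hmn : Nat.Coprime m n) (a b : ℤ)
    (ha : IsCoprime a (m : ℤ)) (hb : IsCoprime b (n : ℤ)) (B : ℕ) :
    ∃ p : ℕ, B < p ∧ p.Prime ∧ (m : ℤ) ∣ (p : ℤ) - a ∧ (n : ℤ) ∣ (p : ℤ) - b := by
  have hmn' : IsCoprime (m : ℤ) (n : ℤ) := Nat.isCoprime_iff_coprime.2 hmn
  obtain ⟨u, v, huv⟩ := hmn'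
  -- `x = a v n + b u m`
  set x : ℤ := a * (v * n) + b * (u * m) with hx
  have h1 : (m : ℤ) ∣ x - a := by
    refine ⟨u * (b - a), ?_⟩
    have h2 : v * (n : ℤ) = 1 - u * m := by linarith
    rw [hx, h2]; ring
  have h2 : (n : ℤ) ∣ x - b := by
    refine ⟨v * (a - b), ?_⟩
    have h3 : u * (m : ℤ) = 1 - v * n := by linarith
    rw [hx, h3]; ring
  have hcm : IsCoprime x (m : ℤ) := by
    obtain ⟨t, ht⟩ := h1
    have h3 : x = a + m * t := by linarith
    rw [h3]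
    exact ha.add_mul_left_left t
  have hcn : IsCoprime x (n : ℤ) := by
    obtain ⟨t, ht⟩ := h2
    have h3 : x = b + n * t := by linarith
    rw [h3]
    exact hb.add_mul_left_left t
  have hc : IsCoprime x ((m * n : ℕ) : ℤ) := by
    push_cast
    exact hcm.mul_right hcn
  obtain ⟨p, hp1, hp2, hp3⟩ := Nat.forall_exists_prime_gt_and_zmodEq B (Nat.mul_ne_zero hm hn) hc
  have h5 : ((m * n : ℕ) : ℤ) ∣ (p : ℤ) - x := by
    have := hp3.symm.dvd
    exact this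
  push_cast at h5
  refine ⟨p, hp1, hp2, ?_, ?_⟩
  · have h6 : (m : ℤ) ∣ (p : ℤ) - x := (Dvd.intro _ rfl).trans h5
    have h7 := dvd_add h6 h1
    rwa [sub_add_sub_cancel] at h7
  · have h6 : (n : ℤ) ∣ (p : ℤ) - x := (Dvd.intro_left _ rfl).trans h5
    have h7 := dvd_add h6 h2
    rwa [sub_add_sub_cancel] at h7

theorem M_TRB (h : M_TRA_stmt) : M_TRB_stmt := by
  intro m hm C _ χ hχ p b hp hpm hpb
  obtain ⟨T1, T2, T3, T4, T5, T6⟩ := h m hm C χ hχ
  have hm0 : m ∣ -(p : ℤ) - 1 := by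
    have h1 : m ∣ (p : ℤ) + 1 := (Dvd.intro_left 4 rfl).trans hpm
    have h2 := (dvd_neg (a := m) (b := (p : ℤ) + 1)).2 h1
    have h3 : -((p : ℤ) + 1) = -(p : ℤ) - 1 := by ring
    rwa [h3] at h2
  have hm1 : m ∣ (p : ℤ) + 1 := (Dvd.intro_left 4 rfl).trans hpm
  have h4 : (4 : ℤ) ∣ (p : ℤ) + 1 := (Dvd.intro m rfl).trans hpm
  -- `p - 1 = 2 s`, `s` odd
  obtain ⟨s, hs, hsodd⟩ : ∃ s : ℕ, p = 2 * s + 1 ∧ s % 2 = 1 := by
    refine ⟨(p - 1) / 2, ?_, ?_⟩ <;> omega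
  have hs0 : s ≠ 0 := by omega
  have hfp : Fact p.Prime := ⟨hp⟩
  have hps : Nat.Coprime p s := by
    refine (Nat.Prime.coprime_iff_not_dvd hp).2 fun hd => ?_
    have := Nat.le_of_dvd (by omega) hd
    omega
  obtain ⟨g, hg⟩ := IsCyclic.exists_generator (α := (ZMod p)ˣ)
  -- integer representative
  set G : ℤ := (((g : ZMod p).val : ℕ) : ℤ) with hG
  have hGc : ((G : ℤ) : ZMod p) = (g : ZMod p) := by
    rw [hG]; push_cast; exact ZMod.natCast_zmod_val _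
  have hunit : ∀ x : ℤ, IsCoprime x (p : ℤ) ↔ (x : ZMod p) ≠ 0 := by
    intro x
    rw [Ne, ZMod.intCast_zmod_eq_zero_iff_dvd, isCoprime_comm,
      Prime.coprime_iff_not_dvd (Nat.prime_iff_prime_int.1 hp)]
  have hGp : IsCoprime G (p : ℤ) := by
    rw [hunit, hGc]; exact g.ne_zero
  have h2s : IsCoprime (2 : ℤ) (s : ℤ) := by
    have h5 : Nat.Coprime 2 s := by
      rw [Nat.coprime_two_left]
      exact Nat.odd_iff.2 hsodd
    have h6 := Nat.isCoprime_iff_coprime.2 h5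
    exact_mod_cast h6
  obtain ⟨l, hl1, hl2, hl3, hl4⟩ := M_TRB_dir p s hp.ne_zero hs0 hps G 2 hGp h2s m.toNat
  have hlm : ¬ ((l : ℤ) ∣ m) := by
    intro hd
    have h1 := Int.le_of_dvd (by omega) hd
    omega
  have hlz : ((l : ℤ) : ZMod p) = (g : ZMod p) := by
    rw [← hGc]
    have h1 := (ZMod.intCast_zmod_eq_zero_iff_dvd ((l : ℤ) - G) p).2 hl3
    rw [Int.cast_sub, sub_eq_zero] at h1
    exact h1
  have hlp : IsCoprime (l : ℤ) (p : ℤ) := by
    rw [hunit, hlz]; exact g.ne_zero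
  have hpl : IsCoprime (-(p : ℤ)) (l : ℤ) := hlp.symm.neg_left
  set c : C := χ (m * l) (-(p : ℤ)) with hc
  have hc1 : c ^ (p - 1) = 1 := T5 p l hp hm1 hlp.symm
  have hc2 : c ^ (l - 1) = 1 := T6 l (-(p : ℤ)) hl2 hlm hm0 hpl
  have hl0 : 2 ≤ l := hl2.two_le
  have hgcd : Nat.Coprime (l - 1) s := by
    rw [← Nat.isCoprime_iff_coprime]
    obtain ⟨t, ht⟩ := hl4
    have h1 : ((l - 1 : ℕ) : ℤ) = 1 + s * t := by
      rw [Nat.cast_sub (by omega)]; push_cast; linarith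
    rw [h1]
    exact (isCoprime_one_left).add_mul_left_left t
  have hc3 : c ^ 2 = 1 := by
    have h1 : c ^ Nat.gcd (p - 1) (l - 1) = 1 := by
      rw [pow_gcd_eq_one]; exact ⟨hc1, hc2⟩
    have h2 : Nat.gcd (p - 1) (l - 1) ∣ 2 := by
      have h3 : p - 1 = 2 * s := by omega
      rw [h3]
      have h4 : Nat.gcd (2 * s) (l - 1) ∣ Nat.gcd 2 (l - 1) * Nat.gcd s (l - 1) :=
        Nat.gcd_mul_left_dvd_mul_gcd _ _ _
      have h5 : Nat.gcd s (l - 1) = 1 := hgcd.symm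
      rw [h5, mul_one] at h4
      exact h4.trans (Nat.gcd_dvd_left _ _)
    obtain ⟨t, ht⟩ := h2
    rw [ht, pow_mul, h1, one_pow]
  -- change of representative modulo `p`
  have hrep : ∀ x y : ℤ, ((x : ℤ) : ZMod p) = (y : ZMod p) → IsCoprime (-(p : ℤ)) y →
      χ (m * x) (-(p : ℤ)) = χ (m * y) (-(p : ℤ)) := by
    intro x y hxy hy
    have h1 : ((x - y : ℤ) : ZMod p) = 0 := by rw [Int.cast_sub, hxy, sub_self]
    rw [ZMod.intCast_zmod_eq_zero_iff_dvd] at h1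
    obtain ⟨t, ht⟩ := h1
    have h2 : x = y + (-t) * (-(p : ℤ)) := by linarith
    rw [h2]
    exact T1 (-(p : ℤ)) y (-t) hm0 hy
  have hpow : ∀ k : ℕ, χ (m * (l : ℤ) ^ k) (-(p : ℤ)) = c ^ k := fun k =>
    T4 (-(p : ℤ)) l k hm0 hpl
  have hcop : ∀ k : ℕ, IsCoprime (-(p : ℤ)) ((l : ℤ) ^ k) := fun k => hpl.pow_right
  -- `g ^ s = -1`
  have hcard : orderOf g = p - 1 := by
    rw [orderOf_eq_card_of_forall_mem_zpowers hg, Nat.card_eq_fintype_card, ZMod.card_units_eq_totient,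
      Nat.totient_prime hp]
  have hgs : g ^ s = -1 := by
    have h1 : (g ^ s) ^ 2 = 1 := by
      rw [← pow_mul, mul_comm, show 2 * s = p - 1 by omega, ← hcard, pow_orderOf_eq_one]
    have h2 : g ^ s ≠ 1 := by
      intro h3
      have h4 := orderOf_dvd_of_pow_eq_one h3
      rw [hcard] at h4
      have := Nat.le_of_dvd (by omega) h4
      omega
    have h3 : ((g ^ s : (ZMod p)ˣ) : ZMod p) ^ 2 = 1 := by
      rw [← Units.val_pow_eq_pow_val, h1, Units.val_one]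
    rcases sq_eq_one_iff.1 h3 with h4 | h4
    · exact absurd (Units.ext h4) h2
    · exact Units.ext (by rw [h4]; simp)
  have hcs : c ^ s = 1 := by
    rw [← hpow s, hrep ((l : ℤ) ^ s) (-1) ?_ (isCoprime_one_right.neg_right)]
    · have h1 := hχ.p6 (-(p : ℤ)) (m * 1) ⟨hm0, Dvd.intro _ rfl, ?_⟩
      · rw [T2 _ hm0] at h1
        rw [← h1]
        congr 1
        ring
      · rw [mul_one]
        obtain ⟨t, ht⟩ := hm0
        have h3 : -(p : ℤ) = 1 + m * t := by linarith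
        rw [h3]
        exact isCoprime_one_left.add_mul_left_left t
    · push_cast
      push_cast at hlz
      rw [hlz, ← Units.val_pow_eq_pow_val, hgs]
      simp
  have hc0 : c = 1 := by
    have h1 : c ^ Nat.gcd s 2 = 1 := by
      rw [pow_gcd_eq_one]; exact ⟨hcs, hc3⟩
    have h2 : Nat.gcd s 2 = 1 := by
      have : Nat.Coprime s 2 := by
        rw [Nat.coprime_two_right]; exact Nat.odd_iff.2 hsodd
      exact this
    rwa [h2, pow_one] at h1
  -- the general case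
  have hb0 : ((b : ℤ) : ZMod p) ≠ 0 := (hunit b).1 hpb.symm
  have hmem := hg (Units.mk0 _ hb0)
  rw [← mem_powers_iff_mem_zpowers] at hmem
  obtain ⟨k, hk⟩ := hmem
  have hk' : g ^ k = Units.mk0 _ hb0 := hk
  have h1 : ((b : ℤ) : ZMod p) = (((l : ℤ) ^ k : ℤ) : ZMod p) := by
    push_cast
    push_cast at hlz
    rw [hlz, ← Units.val_pow_eq_pow_val, hk']
    simp
  rw [hrep b _ h1 (hcop k), hpow, hc0, one_pow]

end Pool.Agent.PR
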