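import Pool.Agent.helper53.PR.M_TRB

namespace Pool.Agent.PR

theorem M_TRC (h1 : M_TRA_stmt) (h2 : M_TRB_stmt) : M_TRC_stmt := by
  intro m hm C _ χ hχ a b hab
  obtain ⟨T1, T2, T3, T4, T5, T6⟩ := h1 m hm C χ hχ
  obtain ⟨ha, ⟨b', rfl⟩, hcop⟩ := hab
  rcases eq_or_ne a 0 with rfl | ha0
  · -- `a = 0`
    have hu : IsUnit (m * b') := isCoprime_zero_left.1 hcop
    have hsq : (m * b') * (m * b') = 1 := by
      rcases Int.isUnit_iff.1 hu with h | h <;> rw [h] <;> norm_num
    have h3 := hχ.p2 0 (m * b') (m * b') ⟨ha, Dvd.intro _ rfl, hcop⟩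
    rw [zero_add, hsq] at h3
    rw [← h3]
    exact hχ.p5 _ (Dvd.intro _ rfl)
  · have hab' : IsCoprime a b' := hcop.of_mul_right_right
    have hA0 : a.natAbs ≠ 0 := Int.natAbs_ne_zero.2 ha0
    have hbA : IsCoprime b' ((a.natAbs : ℕ) : ℤ) := by
      rw [Int.natCast_natAbs]
      rcases abs_choice a with h | h <;> rw [h]
      · exact hab'.symm
      · exact hab'.symm.neg_right
    obtain ⟨q, hq1, hq2, hq3⟩ :=
      Nat.forall_exists_prime_gt_and_zmodEq (4 * m.toNat) hA0 hbA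
    have hq4 : a ∣ (q : ℤ) - b' := by
      have h3 : ((a.natAbs : ℕ) : ℤ) ∣ (q : ℤ) - b' := hq3.symm.dvd
      rwa [Int.natCast_natAbs, abs_dvd] at h3
    obtain ⟨t, ht⟩ := hq4
    have hq5 : (q : ℤ) = b' + t * a := by linarith
    have haq : IsCoprime a (q : ℤ) := by
      rw [hq5, mul_comm t a]
      exact hab'.add_mul_left_right t
    have hstep : χ (m * b') a = χ (m * q) a := by
      rw [hq5]
      exact (T1 a b' t ha hab').symm
    rw [hstep]
    -- second choice
    have hm0 : 4 * m.toNat ≠ 0 := by omega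
    have hmq : Nat.Coprime (4 * m.toNat) q := by
      rw [Nat.coprime_comm]
      refine (Nat.Prime.coprime_iff_not_dvd hq2).2 fun hd => ?_
      have := Nat.le_of_dvd (by omega) hd
      omega
    obtain ⟨p, -, hp2, hp3, hp4⟩ := M_TRB_dir (4 * m.toNat) q hm0 hq2.ne_zero hmq (-1) (-a)
      (isCoprime_one_left.neg_left) haq.neg_left 0
    have hmt : ((4 * m.toNat : ℕ) : ℤ) = 4 * m := by
      push_cast
      rw [Int.toNat_of_nonneg (by omega)]
    have hp5 : 4 * m ∣ (p : ℤ) + 1 := by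
      rw [hmt] at hp3
      have h3 : (p : ℤ) - -1 = (p : ℤ) + 1 := by ring
      rwa [h3] at hp3
    have hp6 : (q : ℤ) ∣ (p : ℤ) + a := by
      have h3 : (p : ℤ) - -a = (p : ℤ) + a := by ring
      rwa [h3] at hp4
    have hp7 : m ∣ (p : ℤ) + a := by
      have h3 : m ∣ (p : ℤ) + 1 := (Dvd.intro_left 4 rfl).trans hp5
      have h4 := dvd_add h3 ha
      have h5 : (p : ℤ) + 1 + (a - 1) = (p : ℤ) + a := by ring
      rwa [h5] at h4
    have hmqc : IsCoprime m (q : ℤ) := by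
      have h3 : IsCoprime ((4 * m.toNat : ℕ) : ℤ) (q : ℤ) := Nat.isCoprime_iff_coprime.2 hmq
      rw [hmt] at h3
      exact h3.of_mul_left_right
    obtain ⟨u, hu⟩ := hmqc.mul_dvd hp7 hp6
    have hpa : -(p : ℤ) = a + (-u) * (m * q) := by linarith
    have ham : IsCoprime a m := by
      obtain ⟨v, hv⟩ := ha
      have h3 : a = 1 + m * v := by linarith
      rw [h3]
      exact isCoprime_one_left.add_mul_left_left v
    have h3 := hχ.p2 a (m * q) (-u) ⟨ha, Dvd.intro _ rfl, ham.mul_right haq⟩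
    rw [← h3, ← hpa]
    refine h2 m hm C χ hχ p q hp2 hp5 ?_
    obtain ⟨w, hw⟩ := hp6
    have h4 : (p : ℤ) = -a + q * w := by linarith
    rw [h4]
    exact haq.neg_left.add_mul_left_left w

end Pool.Agent.PR
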