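import Pool.Agent.helper17.PR.SpecN

/-!
# Project pr, module N_POW: subgroups containing powers of all elements have the same class.
-/

set_option autoImplicit false

namespace Pool.Agent.PR

open Module
open scoped commutatorElement

theorem N_POW_left {Q : Type} [Group Q] {x y z : Q} (h : x * y = z * (y * x))
    (hz : ∀ q : Q, z * q = q * z) (k : ℕ) : x ^ k * y = z ^ k * (y * x ^ k) := by
  induction k with
  | zero => simp
  | succ k ih =>
    rw [pow_succ, mul_assoc, h, ← mul_assoc, ← hz, mul_assoc, ← mul_assoc (x ^ k), ih, pow_succ' z,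
      mul_assoc, mul_assoc, mul_assoc]

theorem N_POW_comm {Q : Type} [Group Q] {x y : Q} (hz : ∀ q : Q, ⁅x, y⁆ * q = q * ⁅x, y⁆)
    (k l : ℕ) : ⁅x ^ k, y ^ l⁆ = ⁅x, y⁆ ^ (k * l) := by
  have h0 : x * y = ⁅x, y⁆ * (y * x) := by
    rw [commutatorElement_def]
    group
  have h1 := N_POW_left h0 hz k
  set z := ⁅x, y⁆ with hzd
  have hzk : ∀ q : Q, z ^ k * q = q * z ^ k := by
    intro q
    exact (Commute.pow_left (show Commute z q from hz q) k).eq
  have h2 : y * x ^ k = (z ^ k)⁻¹ * (x ^ k * y) := by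
    rw [h1, inv_mul_cancel_left]
  have hzk' : ∀ q : Q, (z ^ k)⁻¹ * q = q * (z ^ k)⁻¹ := by
    intro q
    exact (Commute.inv_left (show Commute (z ^ k) q from hzk q)).eq
  have h3 := N_POW_left h2 hzk' l
  rw [commutatorElement_def]
  have h4 : x ^ k * y ^ l = (z ^ k) ^ l * (y ^ l * x ^ k) := by
    rw [h3, inv_pow, mul_inv_cancel_left]
  rw [h4, ← pow_mul]
  group

theorem N_POW_core (G : Type) [Group G] (H : Subgroup G)
    (hH : ∀ g : G, ∃ k : ℕ, 0 < k ∧ g ^ k ∈ H) (i : ℕ) :
    ∀ y ∈ (⊤ : Subgroup G).lowerCentralSeries i, ∃ k : ℕ, 0 < k ∧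
      ∃ h ∈ H.lowerCentralSeries i, ∃ r ∈ (⊤ : Subgroup G).lowerCentralSeries (i + 1),
        y ^ k = h * r := by
  induction i with
  | zero =>
    intro y _
    obtain ⟨k, hk, h⟩ := hH y
    exact ⟨k, hk, y ^ k, h, 1, Subgroup.one_mem _, by rw [mul_one]⟩
  | succ i ih =>
    intro y hy
    set N : Subgroup G := (⊤ : Subgroup G).lowerCentralSeries (i + 1 + 1) with hN
    set π : G →* G ⧸ N := QuotientGroup.mk' N with hπ
    have hcen : ∀ x ∈ (⊤ : Subgroup G).lowerCentralSeries (i + 1), ∀ q : G ⧸ N,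
        π x * q = q * π x := by
      intro x hx q
      obtain ⟨g, rfl⟩ := QuotientGroup.mk'_surjective N q
      have h1 : ⁅x, g⁆ ∈ N := by
        rw [hN, Subgroup.lowerCentralSeries_succ]
        exact Subgroup.commutator_mem_commutator hx trivial
      have h2 : π ⁅x, g⁆ = 1 := (QuotientGroup.eq_one_iff _).2 h1
      rw [map_commutatorElement, commutatorElement_eq_one_iff_mul_comm] at h2
      exact h2
    have key : ∃ k : ℕ, 0 < k ∧ (π y) ^ k ∈ (H.lowerCentralSeries (i + 1)).map π := by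
      have hy' := hy
      rw [Subgroup.mem_lowerCentralSeries_succ_iff] at hy'
      refine Subgroup.closure_induction
        (p := fun y _ => ∃ k : ℕ, 0 < k ∧ (π y) ^ k ∈ (H.lowerCentralSeries (i + 1)).map π)
        ?_ ?_ ?_ ?_ hy'
      · rintro _ ⟨a, ha, b, _, rfl⟩
        obtain ⟨k, hk, h, hh, r, hr, h1⟩ := ih a ha
        obtain ⟨l, hl, h2⟩ := hH b
        refine ⟨k * l, Nat.mul_pos hk hl, ?_⟩
        have h3 : ⁅a, b⁆ ∈ (⊤ : Subgroup G).lowerCentralSeries (i + 1) := by
          rw [Subgroup.lowerCentralSeries_succ]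
          exact Subgroup.commutator_mem_commutator ha trivial
        have h4 := hcen _ h3
        rw [map_commutatorElement] at h4 ⊢
        rw [← N_POW_comm h4, ← map_pow, ← map_pow, h1, map_mul]
        have h5 := hcen r hr
        have h6 : ⁅π h * π r, π (b ^ l)⁆ = ⁅π h, π (b ^ l)⁆ := by
          rw [commutatorElement_def, commutatorElement_def, mul_inv_rev]
          have h7 : π r * π (b ^ l) * (π r)⁻¹ = π (b ^ l) := by
            rw [h5, mul_inv_cancel_right]
          calc π h * π r * π (b ^ l) * ((π r)⁻¹ * (π h)⁻¹) * (π (b ^ l))⁻¹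
              = π h * (π r * π (b ^ l) * (π r)⁻¹) * (π h)⁻¹ * (π (b ^ l))⁻¹ := by group
            _ = _ := by rw [h7]
        rw [h6, ← map_commutatorElement]
        refine Subgroup.mem_map_of_mem π ?_
        rw [Subgroup.lowerCentralSeries_succ]
        exact Subgroup.commutator_mem_commutator hh h2
      · exact ⟨1, one_pos, by rw [map_one, one_pow]; exact Subgroup.one_mem _⟩
      · rintro x x' hx _ ⟨k, hk, h1⟩ ⟨l, hl, h2⟩
        refine ⟨k * l, Nat.mul_pos hk hl, ?_⟩
        have hc : Commute (π x) (π x') := hcen x hx _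
        rw [map_mul, hc.mul_pow, pow_mul, mul_comm k l, pow_mul (π x')]
        exact Subgroup.mul_mem _ (Subgroup.pow_mem _ h1 l) (Subgroup.pow_mem _ h2 k)
      · rintro x _ ⟨k, hk, h1⟩
        refine ⟨k, hk, ?_⟩
        rw [map_inv, inv_pow]
        exact Subgroup.inv_mem _ h1
    obtain ⟨k, hk, h, hh, h1⟩ := key
    rw [← map_pow] at h1
    refine ⟨k, hk, h, hh, h⁻¹ * y ^ k, ?_, by rw [mul_inv_cancel_left]⟩
    exact QuotientGroup.eq.1 h1

theorem N_POW : N_POW_stmt := by
  intro G _ H c htf hH h1 h2 h3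
  obtain ⟨⟨y, hy⟩, hy1⟩ := (Subgroup.ne_bot_iff_exists_ne_one).1 h1
  have hy2 : y ≠ 1 := fun h => hy1 (Subtype.ext h)
  obtain ⟨k, hk, h, hh, r, hr, h4⟩ := N_POW_core G H hH c y hy
  rw [h2, Subgroup.mem_bot] at hr
  have h5 : h ∈ ((⊤ : Subgroup H).lowerCentralSeries c).map H.subtype := by
    rw [Subgroup.top_subtype_lowerCentralSeries]
    exact hh
  rw [h3, Subgroup.map_bot, Subgroup.mem_bot] at h5
  exact htf y hy2 k hk (by rw [h4, h5, hr, mul_one])

end Pool.Agent.PR
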