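import Pool.Agent.helper5.PR.SpecS
import Pool.Agent.helper48.PR.Base

/-!
# Project pr, module S-DET: characters are trivial.
-/

set_option autoImplicit false

namespace Pool.Agent.PR

open Matrix

/-- `SL(n, ℤ)` has no nontrivial homomorphism to an abelian group, `n ≥ 3`. -/
theorem S_DET_perf {n : ℕ} (hn : 3 ≤ n) {A : Type} [CommGroup A] (f : SLZ n →* A) (γ : SLZ n) :
    f γ = 1 := by
  have h1 : f.ker = ⊤ := by
    refine el_gen _ fun i l hil => ?_
    obtain ⟨j, hji, hjl⟩ : ∃ j : Fin n, j ≠ i ∧ j ≠ l := by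
      have h3 : 2 < Fintype.card (Fin n) := by
        rw [Fintype.card_fin]
        omega
      obtain ⟨a, b, c, hab, hac, hbc⟩ := Fintype.two_lt_card_iff.1 h3
      by_cases ha : a ≠ i ∧ a ≠ l
      · exact ⟨a, ha⟩
      · by_cases hb : b ≠ i ∧ b ≠ l
        · exact ⟨b, hb⟩
        · refine ⟨c, ?_, ?_⟩
          · rintro rfl
            apply hb
            refine ⟨hbc, ?_⟩
            rintro rfl
            exact ha ⟨hac, hab⟩
          · rintro rfl
            apply hb
            refine ⟨?_, hbc⟩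
            rintro rfl
            exact ha ⟨hab, hac⟩
    have h2 := congrArg f (el_commutator (i := i) (j := j) (l := l) hji.symm hjl hil 1 1)
    rw [map_mul, map_mul, map_mul, mul_comm (f (el i j hji.symm 1)), mul_assoc] at h2
    rw [MonoidHom.mem_ker]
    have h3 : f (el i l hil (1 * 1)) = 1 := by
      have h4 := h2.symm
      rwa [mul_eq_right] at h4
    rwa [mul_one] at h3
  have h2 : γ ∈ f.ker := by
    rw [h1]
    trivial
  exact h2

/-- finite abelian quotients of `Λ` are trivial -/
theorem S_DET_fin {n : ℕ} (hn : 3 ≤ n) {Λ : Type} [Group Λ] (hq : QuotLe Λ (SLZ n)) {Q : Type}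
    [CommGroup Q] [Finite Q] (f : Λ →* Q) (hf : Function.Surjective f) (q : Q) : q = 1 := by
  obtain ⟨g, hg⟩ := hq Q ⟨f, hf⟩
  obtain ⟨γ, rfl⟩ := hg q
  exact S_DET_perf hn g γ

theorem S_DET : S_DET_stmt := by
  intro n hn Λ _ hfg hq A _ χ l
  have hB : Group.FG χ.range := Group.fg_range χ
  -- every element is a square
  have h1 : ∀ b : χ.range, ∃ c : χ.range, c ^ 2 = b := by
    intro b
    set N : Subgroup χ.range := (powMonoidHom 2 : χ.range →* χ.range).range with hN
    have hfin : Finite (χ.range ⧸ N) := by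
      have hfg2 : Group.FG (χ.range ⧸ N) := QuotientGroup.fg N
      refine CommGroup.finite_of_fg_isMulTorsion _ ?_
      intro x
      obtain ⟨c, rfl⟩ := QuotientGroup.mk_surjective x
      rw [isOfFinOrder_iff_pow_eq_one]
      refine ⟨2, by norm_num, ?_⟩
      rw [← QuotientGroup.mk_pow, QuotientGroup.eq_one_iff]
      exact ⟨c, rfl⟩
    have h2 := S_DET_fin hn hq ((QuotientGroup.mk' N).comp χ.rangeRestrict)
      ((QuotientGroup.mk'_surjective N).comp χ.rangeRestrict_surjective) (QuotientGroup.mk' N b)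
    have h3 : (b : χ.range ⧸ N) = 1 := h2
    rw [QuotientGroup.eq_one_iff] at h3
    obtain ⟨c, hc⟩ := h3
    exact ⟨c, hc⟩
  have hmf : Module.Finite ℤ (Additive χ.range) := by
    rw [Module.Finite.iff_addGroup_fg]
    infer_instance
  obtain ⟨r, hr1, hr2⟩ := Submodule.exists_sub_one_mem_and_smul_eq_zero_of_fg_of_le_smul
    (Ideal.span {(2 : ℤ)}) (⊤ : Submodule ℤ (Additive χ.range)) hmf.fg_top (by
      intro b _
      obtain ⟨c, hc⟩ := h1 b.toMul
      have h2 : b = (2 : ℤ) • Additive.ofMul c := by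
        apply Additive.toMul.injective
        rw [← hc, toMul_zsmul]
        exact (zpow_ofNat c 2).symm
      rw [h2]
      exact Submodule.smul_mem_smul (Ideal.mem_span_singleton_self _) trivial)
  have hr0 : r ≠ 0 := by
    rintro rfl
    rw [Ideal.mem_span_singleton] at hr1
    omega
  have hfin : Finite χ.range := by
    refine CommGroup.finite_of_fg_isMulTorsion _ ?_
    intro b
    rw [isOfFinOrder_iff_zpow_eq_one]
    refine ⟨r, hr0, ?_⟩
    have h2 := hr2 (Additive.ofMul b) trivial
    exact Additive.ofMul.injective h2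
  have h2 := S_DET_fin hn hq χ.rangeRestrict χ.rangeRestrict_surjective ⟨χ l, l, rfl⟩
  exact congrArg Subtype.val h2

end Pool.Agent.PR
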