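import Pool.Agent.helper5.PR.SpecS

/-!
# Project pr, module S-FORM: rational form with minimal denominators.
-/

set_option autoImplicit false

namespace Pool.Agent.PR

open Matrix

theorem S_FORM (hRAT : K_RAT_stmt) (hSPAN : S_SPAN_stmt) (hDET : S_DET_stmt) (hLAT : S_LAT_stmt)
    (hBAD : S_BAD_stmt) (hLR1 : LR1_stmt) (hLSPQ : LSPQ_stmt) : S_FORM_stmt := by
  intro n hn Λ _ hfg hq E _ _ ρ hinf t hrk
  set ρ' : Λ →* Matrix (Fin n) (Fin n) E := (Units.coeHom _).comp ρ with hρ'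
  have hρ : ∀ l, ρ' l = (ρ l : Matrix (Fin n) (Fin n) E) := fun l => rfl
  have hspan : Submodule.span E (Set.range ρ') = ⊤ := hSPAN n hn Λ hfg hq E ρ hinf
  have htr : ∀ l, ∃ c : ℚ, (ρ' l).trace = algebraMap ℚ E c := by
    intro l
    obtain ⟨c, hc⟩ := hRAT n hn Λ hfg hq E ρ hinf l
    exact ⟨c, by rw [hρ, hc, eq_ratCast]⟩
  have hA : (ρ t : Matrix (Fin n) (Fin n) E) - 1 ∈ Submodule.span ℚ (Set.range ρ') := by
    refine Submodule.sub_mem _ (Submodule.subset_span ⟨t, rfl⟩) (Submodule.subset_span ⟨1, ?_⟩)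
    exact map_one ρ'
  obtain ⟨x, y, r, hxy, hyx, hr⟩ := hLR1 n ℚ E Λ ρ' hspan htr _ hA hrk
  have hrs : Submodule.span ℚ (Set.range r) = ⊤ := hLSPQ n ℚ E Λ ρ' r x y hxy hyx hr hspan
  obtain ⟨m, hm, hm1, hm2⟩ := hBAD n Λ hfg r
  obtain ⟨x', y', R0, hxy', hyx', hR0⟩ := hLAT n m hm Λ r hrs hm1
  set χ : Λ →* (ZI m)ˣ := MonoidHom.toHomUnits ((Matrix.detMonoidHom).comp R0) with hχ
  have hdet : ∀ l, (R0 l).det = 1 := by
    intro l
    have h1 := hDET n hn Λ hfg hq (ZI m)ˣ χ l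
    have h2 := congrArg Units.val h1
    exact h2
  let R : Λ →* SLI n m :=
    { toFun := fun l => ⟨R0 l, hdet l⟩
      map_one' := Subtype.ext (map_one R0)
      map_mul' := fun a b => Subtype.ext (map_mul R0 a b) }
  have hRr : ∀ l, ratM (R l) = (R0 l).map (fun a => (a : ℚ)) := fun l => rfl
  set al : Matrix (Fin n) (Fin n) ℚ →+* Matrix (Fin n) (Fin n) E :=
    (algebraMap ℚ E).mapMatrix with hal
  have hXY : x * al x' * (al y' * y) = 1 := by
    rw [Matrix.mul_assoc, ← Matrix.mul_assoc (al x'), ← map_mul, hxy', map_one, Matrix.one_mul, hxy]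
  have hYX : al y' * y * (x * al x') = 1 := by
    rw [Matrix.mul_assoc, ← Matrix.mul_assoc y, hyx, Matrix.one_mul, ← map_mul, hyx', map_one]
  refine ⟨m, R, x * al x', al y' * y, hm, hXY, hYX, ?_, ?_⟩
  · intro l
    rw [← hρ, hr l, hR0 l]
    have e1 : (x' * (R0 l).map (fun a => (a : ℚ)) * y').map (algebraMap ℚ E) =
        al x' * (ratM (R l)).map (fun a => (a : E)) * al y' := by
      have e2 : al ((R0 l).map (fun a => (a : ℚ))) = (ratM (R l)).map (fun a => (a : E)) := by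
        ext i j
        rw [hRr]
        simp [hal]
      change al _ = _
      rw [map_mul, map_mul, e2]
    rw [e1]
    simp only [Matrix.mul_assoc]
  · intro q hq hqm
    obtain ⟨l, hl⟩ := hm2 q hq hqm
    refine ⟨l, ?_⟩
    rw [hR0 l, Matrix.trace_mul_cycle, hyx', Matrix.one_mul] at hl
    exact hl

end Pool.Agent.PR
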