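import Pool.Agent.helper5.PR.SpecS

/-!
# Project pr, module S-INT: unipotent elements have an integral power.
-/

set_option autoImplicit false

namespace Pool.Agent.PR

open Matrix

theorem S_INT_den {m : ℕ} (hm : 1 ≤ m) (x : ℚ) (hx : x ∈ ZI m) :
    ∃ s : ℕ, ∃ a : ℤ, (m : ℚ) ^ s * x = a := by
  have hm0 : (m : ℚ) ≠ 0 := by
    have : m ≠ 0 := by omega
    exact_mod_cast this
  refine Algebra.adjoin_induction (p := fun x _ => ∃ s : ℕ, ∃ a : ℤ, (m : ℚ) ^ s * x = a)
    ?_ ?_ ?_ ?_ hx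
  · intro y hy
    rw [Set.mem_singleton_iff] at hy
    refine ⟨1, 1, ?_⟩
    rw [hy, pow_one, mul_inv_cancel₀ hm0]
    norm_num
  · intro r
    refine ⟨0, r, ?_⟩
    simp
  · rintro y z _ _ ⟨s, a, h1⟩ ⟨t, b, h2⟩
    refine ⟨s + t, (m : ℤ) ^ t * a + (m : ℤ) ^ s * b, ?_⟩
    push_cast
    rw [← h1, ← h2]
    ring
  · rintro y z _ _ ⟨s, a, h1⟩ ⟨t, b, h2⟩
    refine ⟨s + t, a * b, ?_⟩
    push_cast
    rw [← h1, ← h2]
    ring

/-- integral matrices -/
def S_INT_R (n : ℕ) : Subring (Matrix (Fin n) (Fin n) ℚ) :=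
  ((Int.castRingHom ℚ).mapMatrix : Matrix (Fin n) (Fin n) ℤ →+* Matrix (Fin n) (Fin n) ℚ).range

theorem S_INT_choose (n m s k j : ℕ) (hk : k = n.factorial * m ^ s) (hj : 1 ≤ j) (hjn : j ≤ n) :
    m ^ s ∣ k.choose j := by
  obtain ⟨j, rfl⟩ : ∃ i, j = i + 1 := ⟨j - 1, by omega⟩
  have h1 : (j + 1) ∣ n.factorial := Nat.dvd_factorial (by omega) hjn
  obtain ⟨c, hc⟩ := h1
  rcases Nat.eq_zero_or_pos k with h0 | h0
  · rw [h0]
    simp
  · obtain ⟨k', rfl⟩ : ∃ i, k = i + 1 := ⟨k - 1, by omega⟩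
    have h2 := Nat.add_one_mul_choose_eq k' j
    have h3 : (j + 1) * (k' + 1).choose (j + 1) = (j + 1) * (c * m ^ s * k'.choose j) := by
      rw [mul_comm, ← h2, hk, hc]
      ring
    have h4 := Nat.eq_of_mul_eq_mul_left (by omega) h3
    rw [h4]
    exact ⟨c * k'.choose j, by ring⟩

theorem S_INT : S_INT_stmt := by
  intro n m hm u hu
  classical
  set M : Matrix (Fin n) (Fin n) ℚ := ratM u - 1 with hM
  have hMU : ratM u = M + 1 := by rw [hM, sub_add_cancel]
  -- denominators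
  have hden : ∀ i j, ∃ s : ℕ, ∃ a : ℤ, (m : ℚ) ^ s * M i j = a := by
    intro i j
    obtain ⟨s, a, h⟩ := S_INT_den hm (ratM u i j) (by
      change ((u : Matrix (Fin n) (Fin n) (ZI m)) i j : ℚ) ∈ ZI m
      exact ((u : Matrix (Fin n) (Fin n) (ZI m)) i j).2)
    refine ⟨s, a - (m : ℤ) ^ s * (1 : Matrix (Fin n) (Fin n) ℤ) i j, ?_⟩
    rw [hM, Matrix.sub_apply, mul_sub, h]
    push_cast
    congr 2
    rw [Matrix.one_apply, Matrix.one_apply]
    split_ifs <;> simp
  choose s a hsa using hden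
  set s0 : ℕ := ∑ i, ∑ j, s i j with hs0
  have hle : ∀ i j, s i j ≤ s0 := by
    intro i j
    have h1 : s i j ≤ ∑ j', s i j' :=
      Finset.single_le_sum (f := fun j' => s i j') (fun _ _ => Nat.zero_le _) (Finset.mem_univ j)
    have h2 : ∑ j', s i j' ≤ ∑ i', ∑ j', s i' j' :=
      Finset.single_le_sum (f := fun i' => ∑ j', s i' j') (fun _ _ => Nat.zero_le _)
        (Finset.mem_univ i)
    exact h1.trans h2
  have hint : ((m ^ s0 : ℕ) : Matrix (Fin n) (Fin n) ℚ) * M ∈ S_INT_R n := by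
    refine ⟨Matrix.of fun i j => (m : ℤ) ^ (s0 - s i j) * a i j, ?_⟩
    ext i j
    rw [RingHom.mapMatrix_apply, Matrix.map_apply, Matrix.of_apply, ← nsmul_eq_mul,
      Matrix.smul_apply, nsmul_eq_mul]
    simp only [eq_intCast, Int.cast_mul, Int.cast_pow, Int.cast_natCast, Nat.cast_pow]
    rw [← hsa i j, ← mul_assoc, ← pow_add, Nat.sub_add_cancel (hle i j)]
  set k : ℕ := n.factorial * m ^ (s0 * n) with hk
  have hk1 : 1 ≤ k := Nat.mul_pos (Nat.factorial_pos _) (Nat.pow_pos hm)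
  have hpow : (ratM u) ^ k ∈ S_INT_R n := by
    rw [hMU, (Commute.one_right M).add_pow]
    refine Subring.sum_mem _ fun j hj => ?_
    rw [one_pow, mul_one]
    rcases Nat.lt_or_ge j n with h1 | h1
    · rcases Nat.eq_zero_or_pos j with h2 | h2
      · rw [h2, pow_zero, one_mul]
        exact natCast_mem _ _
      · obtain ⟨c, hc⟩ := S_INT_choose n m (s0 * n) k j hk h2 h1.le
        have h3 : s0 * n = s0 * j + s0 * (n - j) := by
          rw [← mul_add]
          congr 1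
          omega
        have h4 : M ^ j * ((k.choose j : ℕ) : Matrix (Fin n) (Fin n) ℚ) =
            ((m ^ (s0 * (n - j)) * c : ℕ) : Matrix (Fin n) (Fin n) ℚ) *
              ((((m ^ s0 : ℕ) : Matrix (Fin n) (Fin n) ℚ) * M) ^ j) := by
          rw [(Nat.cast_commute (m ^ s0) M).mul_pow, ← Nat.cast_pow, ← mul_assoc, ← Nat.cast_mul,
            ← (Nat.cast_commute (k.choose j) (M ^ j)).eq, hc, h3]
          congr 2
          rw [pow_add, pow_mul]
          ring
        rw [h4]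
        exact Subring.mul_mem _ (natCast_mem _ _) (Subring.pow_mem _ hint j)
    · have h2 : M ^ j = 0 := by
        obtain ⟨i, rfl⟩ := Nat.exists_eq_add_of_le h1
        rw [pow_add, hu, zero_mul]
      rw [h2, zero_mul]
      exact Subring.zero_mem _
  obtain ⟨B, hB⟩ := hpow
  have hrat : ∀ x : SLI n m, ratM x =
      ((ZI m).val : ZI m →+* ℚ).mapMatrix (x : Matrix (Fin n) (Fin n) (ZI m)) := fun x => rfl
  have hup : (ratM u) ^ k = ratM (u ^ k) := by
    rw [hrat, hrat, ← map_pow]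
    rfl
  have hdet : B.det = 1 := by
    have h1 : ((Int.castRingHom ℚ).mapMatrix B).det = 1 := by
      rw [hB, hup, hrat]
      have h2 := RingHom.map_det ((ZI m).val : ZI m →+* ℚ)
        ((u ^ k : SLI n m) : Matrix (Fin n) (Fin n) (ZI m))
      rw [← h2, (u ^ k : SLI n m).2, map_one]
    rw [← RingHom.map_det] at h1
    simpa using h1
  refine ⟨k, hk1, ⟨B, hdet⟩, ?_⟩
  refine Subtype.ext ?_
  ext i j
  have h1 := congrFun (congrFun (hB.trans hup) i) j
  exact h1

end Pool.Agent.PR
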