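import Pool.Agent.helper5.PR.SpecS
import Pool.Agent.helper53.PR.N_POW

/-!
# Project pr, module S-NILP: pull back of torsion-free nilpotent subgroups.
-/

set_option autoImplicit false

namespace Pool.Agent.PR

/-- a subgroup of finite index meeting a finite subgroup trivially -/
theorem S_NILP_W {Λ : Type} [Group Λ] (K : Subgroup Λ) [Finite K] (hrf : RF Λ) :
    ∃ W : Subgroup Λ, W.index ≠ 0 ∧ ∀ x ∈ W, x ∈ K → x = 1 := by
  classical
  have h1 : ∀ k : K, ∃ H : Subgroup Λ, H.index ≠ 0 ∧ ((k : Λ) ≠ 1 → (k : Λ) ∉ H) := by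
    intro k
    by_cases hk : (k : Λ) = 1
    · exact ⟨⊤, by rw [Subgroup.index_top]; exact one_ne_zero, fun h => absurd hk h⟩
    · obtain ⟨H, hH1, hH2⟩ := hrf _ hk
      exact ⟨H, hH1, fun _ => hH2⟩
  choose H hH1 hH2 using h1
  refine ⟨⨅ k, H k, Subgroup.index_iInf_ne_zero hH1, fun x hx hxK => ?_⟩
  by_contra hne
  rw [Subgroup.mem_iInf] at hx
  exact hH2 ⟨x, hxK⟩ hne (hx ⟨x, hxK⟩)

theorem S_NILP : S_NILP_stmt := by
  intro Λ L _ _ π hπ hfin hcen hrf c P hP
  classical
  obtain ⟨hnil, htf, hc⟩ := hP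
  obtain ⟨W, hW1, hW2⟩ := S_NILP_W π.ker hrf
  set P₂ : Subgroup Λ := P.comap π ⊓ W with hP₂
  let ψ : P₂ →* P :=
    { toFun := fun x => ⟨π x, x.2.1⟩
      map_one' := Subtype.ext (map_one π)
      map_mul' := fun x y => Subtype.ext (map_mul π _ _) }
  have hψ : Function.Injective ψ := by
    rw [injective_iff_map_eq_one]
    intro x hx
    have h1 : π (x : Λ) = 1 := congrArg Subtype.val hx
    exact Subtype.ext (hW2 x x.2.2 h1)
  -- powers
  have hpow : ∀ g : P, ∃ k : ℕ, 0 < k ∧ g ^ k ∈ ψ.range := by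
    intro g
    obtain ⟨l, hl⟩ := hπ (g : L)
    obtain ⟨k, hk, -, h1⟩ := Subgroup.exists_pow_mem_of_index_ne_zero hW1 l
    have h2 : l ^ k ∈ P.comap π := by
      rw [Subgroup.mem_comap, map_pow, hl]
      exact P.pow_mem g.2 k
    refine ⟨k, hk, ⟨l ^ k, h2, h1⟩, Subtype.ext ?_⟩
    change π (l ^ k) = ((g ^ k : P) : L)
    rw [map_pow, hl, Subgroup.coe_pow]
  -- the exact class
  have hex : ∃ d, (⊤ : Subgroup P).lowerCentralSeries (d + 1) = ⊥ := by
    obtain ⟨n, hn⟩ := (Subgroup.nilpotent_iff_lowerCentralSeries).1 hnil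
    refine ⟨n, ?_⟩
    rw [eq_bot_iff, ← hn]
    exact Subgroup.lowerCentralSeries_antitone _ (Nat.le_succ n)
  have hd1 := Nat.find_spec hex
  have hcd : c ≤ Nat.find hex := by
    by_contra hlt
    rw [not_le] at hlt
    apply hc
    rw [eq_bot_iff, ← hd1]
    exact Subgroup.lowerCentralSeries_antitone _ hlt
  have hd2 : (⊤ : Subgroup P).lowerCentralSeries (Nat.find hex) ≠ ⊥ := by
    rcases Nat.lt_or_ge c (Nat.find hex) with h | h
    · intro h1
      have h2 := Nat.find_min hex (m := Nat.find hex - 1) (by omega)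
      apply h2
      rw [Nat.sub_add_cancel (by omega)]
      exact h1
    · rwa [← le_antisymm hcd h]
  have hN := N_POW P ψ.range (Nat.find hex) htf hpow hd2 hd1
  refine ⟨P₂, ?_, ?_, ?_⟩
  · have hk : ψ.ker ≤ Subgroup.center P₂ := by
      rw [(MonoidHom.ker_eq_bot_iff ψ).2 hψ]
      exact bot_le
    exact Subgroup.isNilpotent_of_ker_le_center ψ hk
  · intro g hg k hk h
    refine htf (ψ g) (fun h1 => hg (hψ (by rw [h1, map_one]))) k hk ?_
    rw [← map_pow, h, map_one]
  · intro h1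
    apply hN
    rw [← Subgroup.map_subtype_inj, Subgroup.top_subtype_lowerCentralSeries, Subgroup.map_bot]
    have h2 : ((⊤ : Subgroup P₂).lowerCentralSeries (Nat.find hex)).map ψ =
        ψ.range.lowerCentralSeries (Nat.find hex) := by
      rw [Subgroup.map_lowerCentralSeries, ← MonoidHom.range_eq_map]
    rw [← h2, Subgroup.map_eq_bot_iff]
    have h3 : (⊤ : Subgroup P₂).lowerCentralSeries (Nat.find hex) = ⊥ := by
      rw [eq_bot_iff, ← h1]
      exact Subgroup.lowerCentralSeries_antitone _ hcd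
    rw [h3]
    exact bot_le

end Pool.Agent.PR
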